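import Mathlib
import Pool.Agent.W964.Pram.RandMachine
import Pool.Agent.W964.Pram.Ip.Verifier

/-!
Quantum algorithms that use parallel machines as subroutines, and quantum proof systems.
-/

namespace Pool.Agent.W964.Pram

open Finset

/-- The square of the norm of a vector with complex coordinates. -/
noncomputable def nsq {Z : Type} [Fintype Z] (ψ : Z → ℂ) : ℝ := ∑ z, ‖ψ z‖ ^ 2

/-- The linear map preserves the norm. On spaces of finite dimension these are the unitary maps. -/
def IsUnitary {Z : Type} [Fintype Z] (U : (Z → ℂ) →ₗ[ℂ] (Z → ℂ)) : Prop :=
  ∀ ψ, nsq (U ψ) = nsq ψ

/-- A quantum algorithm that calls the parallel machines `mach i` for `i : I`, for inputs whose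
bits are indexed by `J`. Its states are unit vectors with coordinates indexed by `I × S`, where `S`
is the set of the basis states of its other memory, which is finite and otherwise arbitrary. A call
of the machines in superposition maps the part of the state at `i : I` by the unitary map
`call i v`, where `v` is the content of the output cell of the machine `mach i` on the input (for
instance, `call i v` can add `v` to a register). The unitary map `step t` is applied to the state
after the call number `t`. The algorithm begins in the state `init`; at the end the state is
measured, and the outcomes in `yes` are accepted. -/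
structure QAlg {J : Type} {P : ℕ} {I : Type} [Fintype I] (mach : I → Machine J P) where
  S : Type
  finS : Fintype S
  call : (i : I) → (mach i).V → ((S → ℂ) →ₗ[ℂ] (S → ℂ))
  call_unitary : ∀ i v, IsUnitary (call i v)
  step : ℕ → ((I × S → ℂ) →ₗ[ℂ] (I × S → ℂ))
  step_unitary : ∀ t, IsUnitary (step t)
  init : I × S → ℂ
  init_unit : nsq init = 1
  yes : I × S → Prop

namespace QAlg

variable {J : Type} {P : ℕ} {I : Type} [Fintype I] {mach : I → Machine J P}

/-- The state after a call in the state `ψ`, when the machines run for `T` steps on the
input `x`. -/
noncomputable def called (A : QAlg mach) (T : ℕ) (x : J → Bool) (ψ : I × A.S → ℂ) :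
    I × A.S → ℂ :=
  letI := A.finS
  fun z => A.call z.1 ((mach z.1).result T x) (fun s => ψ (z.1, s)) z.2

/-- The state after `q` calls. -/
noncomputable def state (A : QAlg mach) (T : ℕ) (x : J → Bool) : ℕ → (I × A.S → ℂ)
  | 0 => A.init
  | q + 1 => A.step q (A.called T x (A.state T x q))

open Classical in
/-- The probability that the algorithm accepts the input `x` after `q` calls. -/
noncomputable def acc (A : QAlg mach) (T q : ℕ) (x : J → Bool) : ℝ :=
  letI := A.finS
  ∑ z, if A.yes z then ‖A.state T x q z‖ ^ 2 else 0

end QAlg

/-- A quantum proof system with one or more provers, for inputs whose bits are indexed by `J`. The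
verifier draws `ω` from a finite probability space, keeps it secret and calls the parallel machines
`mach ω i` for `i : I`. The provers have an arbitrary set `Str` of strategies. The algorithm that
the verifier and the provers perform together when the verifier has drawn `ω` and the provers use
the strategy `π` is `alg ω π`; in particular it contains the initial (entangled) state of the
provers, and the communication and all the operations between two calls. -/
structure QProofs (J : Type) (P : ℕ) where
  Ω : Type
  fin : Fintype Ω
  prob : Ω → ℝ
  nonneg : ∀ ω, 0 ≤ prob ω
  total : ∑ ω, prob ω = 1
  I : Type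
  finI : Fintype I
  mach : Ω → I → Machine J P
  Str : Type
  alg : (ω : Ω) → Str → QAlg (mach ω)

namespace QProofs

variable {J : Type} {P : ℕ}

/-- All lists searched by the machines of the verifier have length at most `k`. -/
def Lists (V : QProofs J P) (k : ℕ) : Prop := ∀ ω i, (V.mach ω i).Lists k

/-- The probability that the verifier accepts the input `x` after `q` calls of its machines, which
run for `T` steps, when the provers use the strategy `π`. -/
noncomputable def acc (V : QProofs J P) (T q : ℕ) (x : J → Bool) (π : V.Str) : ℝ :=
  letI := V.fin
  letI := V.finI
  ∑ ω, V.prob ω * (V.alg ω π).acc T q x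

end QProofs

end Pool.Agent.W964.Pram
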