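import Mathlib
import Pool.Agent.W964.Pram.Q.Quantum

/-!
The hybrid argument of Bennett, Bernstein, Brassard and Vazirani for algorithms that call parallel
machines.
-/

set_option linter.unusedSectionVars false
set_option linter.style.haveILetI false

namespace Pool.Agent.W964.Pram

open Finset

section Norm
variable {Z : Type} [Fintype Z]

/-- The norm of a vector. -/
noncomputable def nrm (ψ : Z → ℂ) : ℝ := Real.sqrt (nsq ψ)

lemma nsq_nonneg (ψ : Z → ℂ) : 0 ≤ nsq ψ := Finset.sum_nonneg fun _ _ => by positivity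

lemma nrm_eq (ψ : Z → ℂ) : nrm ψ = ‖(WithLp.toLp 2 ψ : EuclideanSpace ℂ Z)‖ := by
  rw [EuclideanSpace.norm_eq]
  rfl

lemma nrm_nonneg (ψ : Z → ℂ) : 0 ≤ nrm ψ := Real.sqrt_nonneg _

lemma nrm_sq (ψ : Z → ℂ) : nrm ψ ^ 2 = nsq ψ := Real.sq_sqrt (nsq_nonneg ψ)

lemma nrm_add_le (ψ φ : Z → ℂ) : nrm (ψ + φ) ≤ nrm ψ + nrm φ := by
  rw [nrm_eq, nrm_eq, nrm_eq]
  exact norm_add_le (WithLp.toLp 2 ψ : EuclideanSpace ℂ Z) (WithLp.toLp 2 φ)

lemma nrm_sub_le (ψ φ : Z → ℂ) : nrm (ψ - φ) ≤ nrm ψ + nrm φ := by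
  rw [nrm_eq, nrm_eq, nrm_eq]
  exact norm_sub_le (WithLp.toLp 2 ψ : EuclideanSpace ℂ Z) (WithLp.toLp 2 φ)

lemma abs_nrm_sub (ψ φ : Z → ℂ) : |nrm ψ - nrm φ| ≤ nrm (ψ - φ) := by
  rw [nrm_eq, nrm_eq, nrm_eq]
  exact abs_norm_sub_norm_le (WithLp.toLp 2 ψ : EuclideanSpace ℂ Z) (WithLp.toLp 2 φ)

lemma nrm_unitary {U : (Z → ℂ) →ₗ[ℂ] (Z → ℂ)} (hU : IsUnitary U) (ψ : Z → ℂ) :
    nrm (U ψ) = nrm ψ := by
  unfold nrm
  rw [hU]

lemma nsq_mono {ψ φ : Z → ℂ} (h : ∀ z, ‖ψ z‖ ≤ ‖φ z‖) : nsq ψ ≤ nsq φ :=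
  Finset.sum_le_sum fun z _ => pow_le_pow_left₀ (norm_nonneg _) (h z) 2

open Classical in
/-- The probabilities of an outcome in two states. -/
lemma measure_diff (Y : Z → Prop) (ψ φ : Z → ℂ) (hψ : nsq ψ = 1) (hφ : nsq φ = 1) :
    |(∑ z, if Y z then ‖ψ z‖ ^ 2 else 0) - ∑ z, if Y z then ‖φ z‖ ^ 2 else 0| ≤
      2 * nrm (ψ - φ) := by
  obtain ⟨ψ', hψ'⟩ : ∃ ψ' : Z → ℂ, ψ' = fun z => if Y z then ψ z else 0 := ⟨_, rfl⟩
  obtain ⟨φ', hφ'⟩ : ∃ φ' : Z → ℂ, φ' = fun z => if Y z then φ z else 0 := ⟨_, rfl⟩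
  have h1 : (∑ z, if Y z then ‖ψ z‖ ^ 2 else 0) = nrm ψ' ^ 2 := by
    rw [nrm_sq, hψ']
    unfold nsq
    refine Finset.sum_congr rfl fun z _ => ?_
    beta_reduce
    by_cases h : Y z
    · rw [if_pos h, if_pos h]
    · rw [if_neg h, if_neg h]
      simp
  have h2 : (∑ z, if Y z then ‖φ z‖ ^ 2 else 0) = nrm φ' ^ 2 := by
    rw [nrm_sq, hφ']
    unfold nsq
    refine Finset.sum_congr rfl fun z _ => ?_
    beta_reduce
    by_cases h : Y z
    · rw [if_pos h, if_pos h]
    · rw [if_neg h, if_neg h]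
      simp
  have hψ1 : nrm ψ' ≤ 1 := by
    unfold nrm
    rw [Real.sqrt_le_one]
    rw [← hψ]
    apply nsq_mono
    intro z
    rw [hψ']
    beta_reduce
    split_ifs
    · exact le_rfl
    · simp
  have hφ1 : nrm φ' ≤ 1 := by
    unfold nrm
    rw [Real.sqrt_le_one]
    rw [← hφ]
    apply nsq_mono
    intro z
    rw [hφ']
    beta_reduce
    split_ifs
    · exact le_rfl
    · simp
  have hd : nrm (ψ' - φ') ≤ nrm (ψ - φ) := by
    unfold nrm
    apply Real.sqrt_le_sqrt
    apply nsq_mono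
    intro z
    simp only [Pi.sub_apply, hψ', hφ']
    split_ifs
    · exact le_rfl
    · simp
  rw [h1, h2]
  have h3 : nrm ψ' ^ 2 - nrm φ' ^ 2 = (nrm ψ' - nrm φ') * (nrm ψ' + nrm φ') := by ring
  rw [h3, abs_mul]
  have h4 := abs_nrm_sub ψ' φ'
  have h5 : |nrm ψ' + nrm φ'| ≤ 2 := by
    rw [abs_of_nonneg (add_nonneg (nrm_nonneg _) (nrm_nonneg _))]
    linarith
  calc |nrm ψ' - nrm φ'| * |nrm ψ' + nrm φ'| ≤ nrm (ψ - φ) * 2 :=
        mul_le_mul (h4.trans hd) h5 (abs_nonneg _) (nrm_nonneg _)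
    _ = 2 * nrm (ψ - φ) := by ring

end Norm

section Alg
variable {J : Type} {P : ℕ} {I : Type} [Fintype I] {mach : I → Machine J P}

/-- The part of the state at the program `i`. -/
noncomputable def QAlg.part (A : QAlg mach) (ψ : I × A.S → ℂ) (i : I) : ℝ :=
  letI := A.finS
  ∑ s, ‖ψ (i, s)‖ ^ 2

lemma QAlg.part_nonneg (A : QAlg mach) (ψ : I × A.S → ℂ) (i : I) : 0 ≤ A.part ψ i :=
  Finset.sum_nonneg fun _ _ => by positivity

lemma QAlg.part_sum (A : QAlg mach) (ψ : I × A.S → ℂ) :
    letI := A.finS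
    ∑ i, A.part ψ i = nsq ψ := by
  letI := A.finS
  unfold QAlg.part nsq
  rw [Fintype.sum_prod_type]

lemma QAlg.called_part (A : QAlg mach) (T : ℕ) (x : J → Bool) (ψ : I × A.S → ℂ) (i : I) :
    A.part (A.called T x ψ) i = A.part ψ i := by
  letI := A.finS
  exact A.call_unitary i ((mach i).result T x) (fun s => ψ (i, s))

lemma QAlg.called_nsq (A : QAlg mach) (T : ℕ) (x : J → Bool) (ψ : I × A.S → ℂ) :
    letI := A.finS
    nsq (A.called T x ψ) = nsq ψ := by
  letI := A.finS
  rw [← A.part_sum, ← A.part_sum]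
  exact Finset.sum_congr rfl fun i _ => A.called_part T x ψ i

lemma QAlg.called_sub (A : QAlg mach) (T : ℕ) (x : J → Bool) (ψ φ : I × A.S → ℂ) :
    A.called T x ψ - A.called T x φ = A.called T x (ψ - φ) := by
  letI := A.finS
  funext z
  show A.call z.1 _ (fun s => ψ (z.1, s)) z.2 - A.call z.1 _ (fun s => φ (z.1, s)) z.2 =
    A.call z.1 _ (fun s => (ψ - φ) (z.1, s)) z.2
  rw [← Pi.sub_apply, ← map_sub]
  rfl

open Classical in
/-- The effect of a call on two inputs. -/
lemma QAlg.called_diff (A : QAlg mach) (T : ℕ) (x x' : J → Bool) (ψ : I × A.S → ℂ) :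
    letI := A.finS
    nrm (A.called T x ψ - A.called T x' ψ) ≤ 2 * Real.sqrt (∑ i,
      (if (mach i).result T x ≠ (mach i).result T x' then A.part ψ i else 0)) := by
  letI := A.finS
  have h1 : nsq (A.called T x ψ - A.called T x' ψ) ≤ 4 * ∑ i,
      (if (mach i).result T x ≠ (mach i).result T x' then A.part ψ i else 0) := by
    rw [← A.part_sum, Finset.mul_sum]
    refine Finset.sum_le_sum fun i _ => ?_
    by_cases h : (mach i).result T x = (mach i).result T x'
    · rw [if_neg (not_not.2 h), mul_zero]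
      apply le_of_eq
      unfold QAlg.part
      apply Finset.sum_eq_zero
      intro s _
      have : A.called T x ψ (i, s) = A.called T x' ψ (i, s) := by
        unfold QAlg.called
        dsimp only
        rw [h]
      rw [Pi.sub_apply, this, sub_self, norm_zero]
      norm_num
    · rw [if_pos h]
      have h2 : A.part (A.called T x ψ - A.called T x' ψ) i =
          nrm ((fun s => A.called T x ψ (i, s)) - fun s => A.called T x' ψ (i, s)) ^ 2 := by
        rw [nrm_sq]
        rfl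
      have h3 : nrm (fun s => A.called T x ψ (i, s)) ^ 2 = A.part ψ i := by
        rw [nrm_sq]
        exact A.called_part T x ψ i
      have h4 : nrm (fun s => A.called T x' ψ (i, s)) ^ 2 = A.part ψ i := by
        rw [nrm_sq]
        exact A.called_part T x' ψ i
      have h5 := nrm_sub_le (fun s => A.called T x ψ (i, s)) (fun s => A.called T x' ψ (i, s))
      rw [h2]
      have h6 := nrm_nonneg (fun s => A.called T x ψ (i, s))
      have h7 := nrm_nonneg (fun s => A.called T x' ψ (i, s))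
      have h8 : nrm (fun s => A.called T x ψ (i, s)) = nrm (fun s => A.called T x' ψ (i, s)) := by
        rw [← h4] at h3
        exact (pow_left_inj₀ h6 h7 (by norm_num)).1 h3
      calc nrm ((fun s => A.called T x ψ (i, s)) - fun s => A.called T x' ψ (i, s)) ^ 2
          ≤ (nrm (fun s => A.called T x ψ (i, s)) + nrm (fun s => A.called T x' ψ (i, s))) ^ 2 :=
            pow_le_pow_left₀ (nrm_nonneg _) h5 2
        _ = 4 * nrm (fun s => A.called T x' ψ (i, s)) ^ 2 := by rw [h8]; ring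
        _ = 4 * A.part ψ i := by rw [h4]
  calc nrm (A.called T x ψ - A.called T x' ψ) ≤ Real.sqrt (4 * ∑ i,
      (if (mach i).result T x ≠ (mach i).result T x' then A.part ψ i else 0)) :=
        Real.sqrt_le_sqrt h1
    _ = _ := by
      rw [Real.sqrt_mul (by norm_num)]
      congr 1
      rw [show (4 : ℝ) = 2 ^ 2 by norm_num]
      exact Real.sqrt_sq (by norm_num)

lemma QAlg.state_nsq (A : QAlg mach) (T : ℕ) (x : J → Bool) (q : ℕ) :
    letI := A.finS
    nsq (A.state T x q) = 1 := by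
  letI := A.finS
  induction q with
  | zero => exact A.init_unit
  | succ q ih =>
    show nsq (A.step q (A.called T x (A.state T x q))) = 1
    rw [A.step_unitary q, A.called_nsq, ih]

open Classical in
/-- The hybrid argument. -/
lemma QAlg.hybrid (A : QAlg mach) (T : ℕ) (x x' : J → Bool) (q : ℕ) :
    letI := A.finS
    nrm (A.state T x q - A.state T x' q) ≤ ∑ j ∈ Finset.range q, 2 * Real.sqrt (∑ i,
      (if (mach i).result T x ≠ (mach i).result T x' then A.part (A.state T x j) i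
        else 0)) := by
  letI := A.finS
  induction q with
  | zero =>
    show nrm (A.init - A.init) ≤ _
    rw [sub_self]
    unfold nrm nsq
    simp
  | succ q ih =>
    rw [Finset.sum_range_succ]
    have h1 : A.state T x (q + 1) - A.state T x' (q + 1) =
        A.step q ((A.called T x (A.state T x q) - A.called T x' (A.state T x q)) +
          A.called T x' (A.state T x q - A.state T x' q)) := by
      show A.step q (A.called T x (A.state T x q)) - A.step q (A.called T x' (A.state T x' q)) = _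
      rw [← map_sub, ← A.called_sub]
      congr 1
      abel
    rw [h1, nrm_unitary (A.step_unitary q)]
    refine (nrm_add_le _ _).trans ?_
    have h2 := A.called_diff T x x' (A.state T x q)
    have h3 : nrm (A.called T x' (A.state T x q - A.state T x' q)) =
        nrm (A.state T x q - A.state T x' q) := by
      unfold nrm
      rw [A.called_nsq]
    rw [h3]
    linarith

open Classical in
/-- The acceptance probabilities of two inputs. -/
lemma QAlg.acc_diff (A : QAlg mach) (T q : ℕ) (x x' : J → Bool) :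
    letI := A.finS
    |A.acc T q x - A.acc T q x'| ≤ 4 * ∑ j ∈ Finset.range q, Real.sqrt (∑ i,
      (if (mach i).result T x ≠ (mach i).result T x' then A.part (A.state T x j) i
        else 0)) := by
  letI := A.finS
  have h1 := measure_diff A.yes (A.state T x q) (A.state T x' q) (A.state_nsq T x q)
    (A.state_nsq T x' q)
  have h2 := A.hybrid T x x' q
  rw [← Finset.mul_sum] at h2
  unfold QAlg.acc
  linarith

end Alg

end Pool.Agent.W964.Pram
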