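import Mathlib
import Pool.Agent.W964.Pram.Q.Hybrid
import Pool.Agent.W964.Pram.Ip.Moments

/-!
The acceptance probabilities on an instance and on the planted instances.
-/

set_option linter.unusedSectionVars false
set_option linter.style.haveILetI false

namespace Pool.Agent.W964.Pram

open Finset H568R2 H592R3

section Pt
variable {J : Type} {P : ℕ} {I : Type} [Fintype I] {mach : I → Machine J P}
variable {m n r : ℕ}

/-- The sum of the powers of the numbers of changes. -/
noncomputable def alln (mach : I → Machine J P) (T k : ℕ) (s : Fin m → Fin r → Fin m)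
    (σ : ((Fin m × (Fin r → Fin n)) → Bool) → (J → Bool))
    (X : (Fin m × (Fin r → Fin n)) → Bool) : ℝ :=
  ∑ i : I, nch s (fun Y => (mach i).res T (σ Y)) X ^ k

lemma alln_nonneg (mach : I → Machine J P) (T k : ℕ) (s : Fin m → Fin r → Fin m)
    (σ : ((Fin m × (Fin r → Fin n)) → Bool) → (J → Bool))
    (X : (Fin m × (Fin r → Fin n)) → Bool) : 0 ≤ alln mach T k s σ X :=
  Finset.sum_nonneg fun i _ => pow_nonneg (nch_nonneg s _ X) k

lemma QAlg.point (A : QAlg mach) (T q k : ℕ) (s : Fin m → Fin r → Fin m)
    (σ : ((Fin m × (Fin r → Fin n)) → Bool) → (J → Bool))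
    (X : (Fin m × (Fin r → Fin n)) → Bool) :
    (∑ a : Fin m → Fin n, |A.acc T q (σ X) - A.acc T q (σ (plant (vr s a) univ X))|) ^ (2 * k) ≤
      (4 * (q : ℝ)) ^ (2 * k) * ((((n : ℝ)) ^ m) ^ k * alln mach T k s σ X) := by
  classical
  letI := A.finS
  obtain ⟨y, hy⟩ : ∃ y : ℕ → ℝ, y = fun j => ∑ i, A.part (A.state T (σ X) j) i *
    nch s (fun Y => (mach i).res T (σ Y)) X := ⟨_, rfl⟩
  have hy0 : ∀ j, 0 ≤ y j := by
    intro j
    rw [hy]
    exact Finset.sum_nonneg fun i _ => mul_nonneg (A.part_nonneg _ _) (nch_nonneg s _ X)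
  -- the sum of the errors of one call
  have hcall : ∀ j, ∑ a : Fin m → Fin n, Real.sqrt (∑ i,
      (if (mach i).result T (σ X) ≠ (mach i).result T (σ (plant (vr s a) univ X)) then
        A.part (A.state T (σ X) j) i else 0)) ≤ Real.sqrt ((n : ℝ) ^ m * y j) := by
    intro j
    apply Real.le_sqrt_of_sq_le
    have h1 := Finset.sum_mul_sq_le_sq_mul_sq (univ : Finset (Fin m → Fin n)) (fun _ => (1 : ℝ))
      (fun a => Real.sqrt (∑ i,
      (if (mach i).result T (σ X) ≠ (mach i).result T (σ (plant (vr s a) univ X)) then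
        A.part (A.state T (σ X) j) i else 0)))
    simp only [one_mul, one_pow, Finset.sum_const, Finset.card_univ, Fintype.card_fun,
      Fintype.card_fin, nsmul_eq_mul, mul_one] at h1
    refine h1.trans (le_of_eq ?_)
    push_cast
    congr 1
    rw [hy]
    dsimp only
    have h2 : ∀ a : Fin m → Fin n, Real.sqrt (∑ i,
      (if (mach i).result T (σ X) ≠ (mach i).result T (σ (plant (vr s a) univ X)) then
        A.part (A.state T (σ X) j) i else 0)) ^ 2 = ∑ i, A.part (A.state T (σ X) j) i *
        (if (mach i).result T (σ X) ≠ (mach i).result T (σ (plant (vr s a) univ X)) then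
        (1 : ℝ) else 0) := by
      intro a
      rw [Real.sq_sqrt]
      · refine Finset.sum_congr rfl fun i _ => ?_
        split_ifs <;> simp
      · refine Finset.sum_nonneg fun i _ => ?_
        split_ifs
        · exact A.part_nonneg _ _
        · exact le_rfl
    simp_rw [h2]
    rw [Finset.sum_comm]
    refine Finset.sum_congr rfl fun i _ => ?_
    rw [← Finset.mul_sum]
    rfl
  -- the sum of the differences
  have hsum : ∑ a : Fin m → Fin n, |A.acc T q (σ X) - A.acc T q (σ (plant (vr s a) univ X))| ≤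
      4 * ∑ j ∈ Finset.range q, Real.sqrt ((n : ℝ) ^ m * y j) := by
    calc _ ≤ ∑ a : Fin m → Fin n, 4 * ∑ j ∈ Finset.range q, Real.sqrt (∑ i,
        (if (mach i).result T (σ X) ≠ (mach i).result T (σ (plant (vr s a) univ X)) then
        A.part (A.state T (σ X) j) i else 0)) :=
          Finset.sum_le_sum fun a _ => A.acc_diff T q (σ X) (σ (plant (vr s a) univ X))
      _ = 4 * ∑ j ∈ Finset.range q, ∑ a : Fin m → Fin n, Real.sqrt (∑ i,
        (if (mach i).result T (σ X) ≠ (mach i).result T (σ (plant (vr s a) univ X)) then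
        A.part (A.state T (σ X) j) i else 0)) := by
          rw [← Finset.mul_sum, Finset.sum_comm]
      _ ≤ _ := by
          apply mul_le_mul_of_nonneg_left _ (by norm_num)
          exact Finset.sum_le_sum fun j _ => hcall j
  have hy_le : ∀ j, y j ^ k ≤ alln mach T k s σ X := by
    intro j
    have h1 := Real.pow_arith_mean_le_arith_mean_pow univ
      (fun i => A.part (A.state T (σ X) j) i)
      (fun i => nch s (fun Y => (mach i).res T (σ Y)) X) (fun i _ => A.part_nonneg _ _)
      (by rw [A.part_sum]; exact A.state_nsq T (σ X) j) (fun i _ => nch_nonneg s _ X) k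
    rw [hy]
    refine h1.trans ?_
    unfold alln
    refine Finset.sum_le_sum fun i _ => ?_
    apply mul_le_of_le_one_left (pow_nonneg (nch_nonneg s _ X) k)
    have h2 := A.state_nsq T (σ X) j
    rw [← A.part_sum] at h2
    rw [← h2]
    exact Finset.single_le_sum (f := fun i => A.part (A.state T (σ X) j) i)
      (fun i _ => A.part_nonneg _ i) (Finset.mem_univ i)
  have hs0 : 0 ≤ ∑ a : Fin m → Fin n,
      |A.acc T q (σ X) - A.acc T q (σ (plant (vr s a) univ X))| :=
    Finset.sum_nonneg fun a _ => abs_nonneg _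
  rcases Nat.eq_zero_or_pos q with hq | hq
  · subst hq
    simp only [Finset.range_zero, Finset.sum_empty, mul_zero] at hsum
    have h0 : ∑ a : Fin m → Fin n,
      |A.acc T 0 (σ X) - A.acc T 0 (σ (plant (vr s a) univ X))| = 0 := le_antisymm hsum hs0
    rw [h0]
    rcases Nat.eq_zero_or_pos k with hk | hk
    · subst hk
      have h1 := hy_le 0
      simp only [pow_zero] at h1
      simp only [mul_zero, pow_zero, one_mul]
      exact h1
    · rw [zero_pow (by omega)]
      have := alln_nonneg mach T k s σ X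
      positivity
  · obtain ⟨j0, hj0, hmax⟩ := Finset.exists_max_image (Finset.range q) y ⟨0, by simpa using hq⟩
    have h1 : ∑ j ∈ Finset.range q, Real.sqrt ((n : ℝ) ^ m * y j) ≤
        (q : ℝ) * Real.sqrt ((n : ℝ) ^ m * y j0) := by
      have h2 := Finset.sum_le_card_nsmul (Finset.range q)
        (fun j => Real.sqrt ((n : ℝ) ^ m * y j)) (Real.sqrt ((n : ℝ) ^ m * y j0)) (by
        intro j hj
        apply Real.sqrt_le_sqrt
        exact mul_le_mul_of_nonneg_left (hmax j hj) (by positivity))
      rw [Finset.card_range, nsmul_eq_mul] at h2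
      exact h2
    have h3 : ∑ a : Fin m → Fin n,
        |A.acc T q (σ X) - A.acc T q (σ (plant (vr s a) univ X))| ≤
        (4 * (q : ℝ)) * Real.sqrt ((n : ℝ) ^ m * y j0) := by
      refine hsum.trans ?_
      linarith
    calc (∑ a : Fin m → Fin n,
        |A.acc T q (σ X) - A.acc T q (σ (plant (vr s a) univ X))|) ^ (2 * k)
        ≤ ((4 * (q : ℝ)) * Real.sqrt ((n : ℝ) ^ m * y j0)) ^ (2 * k) :=
          pow_le_pow_left₀ hs0 h3 _
      _ = (4 * (q : ℝ)) ^ (2 * k) * ((((n : ℝ)) ^ m) ^ k * y j0 ^ k) := by
          rw [mul_pow]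
          congr 1
          rw [pow_mul, Real.sq_sqrt (mul_nonneg (by positivity) (hy0 j0)), mul_pow]
      _ ≤ _ := by
          apply mul_le_mul_of_nonneg_left _ (by positivity)
          exact mul_le_mul_of_nonneg_left (hy_le j0) (by positivity)

end Pt

end Pool.Agent.W964.Pram
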