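import Mathlib
import Pool.Agent.W964.Pram.Q.Point
import Pool.Agent.W964.Pram.Ip.MomHard

/-!
Planted constraint satisfaction problems that are hard for quantum algorithms which call parallel
machines, and for quantum proof systems.
-/

set_option linter.unusedSectionVars false
set_option linter.style.haveILetI false

namespace Pool.Agent.W964.Pram

open Finset H568R2 H592R3

lemma q_arith (g k t : ℕ) (q NN u E : ℝ) (hq : 0 ≤ q) (hNN : 0 < NN) (hE : 0 ≤ E) (hk : 1 ≤ k)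
    (hgk : 2 * (g + 2) ≤ t * k) (hu0 : 0 < u) (hu4 : u ^ 4 = 2 ^ t)
    (h : E ^ (2 * k) ≤ (4 * q) ^ (2 * k) * (NN ^ k * (2 ^ g * (NN * (4 / 2 ^ t)) ^ k))) :
    E ≤ q * (8 * NN / u) := by
  have h1 : (2 : ℝ) ^ g ≤ (u ^ 2) ^ k := by
    have h2 : ((2 : ℝ) ^ g) ^ 2 ≤ ((u ^ 2) ^ k) ^ 2 := by
      have h3 : ((u ^ 2) ^ k) ^ 2 = 2 ^ (t * k) := by
        calc ((u ^ 2) ^ k) ^ 2 = (u ^ 4) ^ k := by
              rw [← pow_mul, ← pow_mul, ← pow_mul]; congr 1; ring
          _ = 2 ^ (t * k) := by rw [hu4, ← pow_mul]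
      rw [h3, ← pow_mul]
      exact pow_le_pow_right₀ (by norm_num) (by omega)
    exact (pow_le_pow_iff_left₀ (by positivity) (by positivity) (by norm_num)).1 h2
  have h2 : NN ^ k * (2 ^ g * (NN * (4 / 2 ^ t)) ^ k) ≤ (NN * (2 / u)) ^ (2 * k) := by
    rw [← hu4]
    have e1 : (NN * (2 / u)) ^ (2 * k) = NN ^ k * ((u ^ 2) ^ k * (NN * (4 / u ^ 4)) ^ k) := by
      rw [← mul_pow, ← mul_pow, pow_mul]
      congr 1
      field_simp
      ring
    rw [e1]
    apply mul_le_mul_of_nonneg_left _ (by positivity)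
    exact mul_le_mul_of_nonneg_right h1 (by positivity)
  have h3 : E ^ (2 * k) ≤ (q * (8 * NN / u)) ^ (2 * k) := by
    refine h.trans ((mul_le_mul_of_nonneg_left h2 (by positivity)).trans (le_of_eq ?_))
    rw [← mul_pow]
    congr 1
    ring
  exact (pow_le_pow_iff_left₀ hE (by positivity) (by omega)).1 h3

theorem q_mean {J : Type} {P m n r : ℕ} (V : QProofs J P) (T q g k t : ℕ)
    (s : Fin m → Fin r → Fin m) (σ : ((Fin m × (Fin r → Fin n)) → Bool) → (J → Bool)) {p : ℝ}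
    (hp0 : 0 ≤ p) (hp1 : p ≤ 1) (hn : 1 ≤ n) (hk : 1 ≤ k) (hgk : 2 * (g + 2) ≤ t * k)
    (hI : Nat.card V.I ≤ 2 ^ g)
    (hmom : ∀ ω i, Ex (vp p) (fun X : (Fin m × (Fin r → Fin n)) → Bool =>
      nch s (fun X => (V.mach ω i).res T (σ X)) X ^ k) ≤ ((n : ℝ) ^ m * (4 / 2 ^ t)) ^ k)
    (π : ((Fin m × (Fin r → Fin n)) → Bool) → V.Str) :
    Ex (vp p) (fun X : (Fin m × (Fin r → Fin n)) → Bool => ∑ a : Fin m → Fin n,
      |V.acc T q (σ X) (π X) - V.acc T q (σ (plant (vr s a) univ X)) (π X)|) ≤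
      q * (8 * (n : ℝ) ^ m / 2 ^ ((t : ℝ) / 4)) := by
  classical
  letI := V.fin
  letI := V.finI
  obtain ⟨u, hu⟩ : ∃ u : ℝ, u = (2 : ℝ) ^ ((t : ℝ) / 4) := ⟨_, rfl⟩
  have hu0 : 0 < u := by rw [hu]; positivity
  have hu4 : u ^ 4 = 2 ^ t := by
    rw [hu, ← Real.rpow_natCast, ← Real.rpow_mul (by norm_num), ← Real.rpow_natCast]
    congr 1
    push_cast
    ring
  rw [← hu]
  have hNN : (0 : ℝ) < (n : ℝ) ^ m := by
    have : (0 : ℝ) < n := by exact_mod_cast hn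
    positivity
  have hD0 : ∀ X : (Fin m × (Fin r → Fin n)) → Bool, 0 ≤ ∑ a : Fin m → Fin n,
      |V.acc T q (σ X) (π X) - V.acc T q (σ (plant (vr s a) univ X)) (π X)| :=
    fun X => Finset.sum_nonneg fun a _ => abs_nonneg _
  -- the pointwise bound
  have hpt : ∀ X : (Fin m × (Fin r → Fin n)) → Bool, (∑ a : Fin m → Fin n,
      |V.acc T q (σ X) (π X) - V.acc T q (σ (plant (vr s a) univ X)) (π X)|) ^ (2 * k) ≤
      ∑ ω, V.prob ω * (((4 * (q : ℝ)) ^ (2 * k) * (((n : ℝ)) ^ m) ^ k) *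
        alln (V.mach ω) T k s σ X) := by
    intro X
    have h1 : ∑ a : Fin m → Fin n,
      |V.acc T q (σ X) (π X) - V.acc T q (σ (plant (vr s a) univ X)) (π X)| ≤
      ∑ ω, V.prob ω * ∑ a : Fin m → Fin n, |(V.alg ω (π X)).acc T q (σ X) -
        (V.alg ω (π X)).acc T q (σ (plant (vr s a) univ X))| := by
      have h2 : ∀ a : Fin m → Fin n,
          |V.acc T q (σ X) (π X) - V.acc T q (σ (plant (vr s a) univ X)) (π X)| ≤
          ∑ ω, V.prob ω * |(V.alg ω (π X)).acc T q (σ X) -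
            (V.alg ω (π X)).acc T q (σ (plant (vr s a) univ X))| := by
        intro a
        unfold QProofs.acc
        rw [← Finset.sum_sub_distrib]
        refine (Finset.abs_sum_le_sum_abs _ _).trans (le_of_eq ?_)
        refine Finset.sum_congr rfl fun ω _ => ?_
        rw [← mul_sub, abs_mul, abs_of_nonneg (V.nonneg ω)]
      refine (Finset.sum_le_sum fun a _ => h2 a).trans (le_of_eq ?_)
      rw [Finset.sum_comm]
      refine Finset.sum_congr rfl fun ω _ => ?_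
      rw [← Finset.mul_sum]
    refine (pow_le_pow_left₀ (hD0 X) h1 (2 * k)).trans ?_
    have h3 := Real.pow_arith_mean_le_arith_mean_pow univ V.prob (fun ω =>
      ∑ a : Fin m → Fin n, |(V.alg ω (π X)).acc T q (σ X) -
        (V.alg ω (π X)).acc T q (σ (plant (vr s a) univ X))|)
      (fun ω _ => V.nonneg ω) V.total (fun ω _ => Finset.sum_nonneg fun a _ => abs_nonneg _)
      (2 * k)
    refine h3.trans ?_
    refine Finset.sum_le_sum fun ω _ => ?_
    apply mul_le_mul_of_nonneg_left _ (V.nonneg ω)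
    refine ((V.alg ω (π X)).point T q k s σ X).trans (le_of_eq ?_)
    ring
  have hcard : (Fintype.card V.I : ℝ) ≤ 2 ^ g := by
    rw [Nat.card_eq_fintype_card] at hI
    exact_mod_cast hI
  have hall : ∀ ω, Ex (vp p) (fun X : (Fin m × (Fin r → Fin n)) → Bool =>
      alln (V.mach ω) T k s σ X) ≤ 2 ^ g * ((n : ℝ) ^ m * (4 / 2 ^ t)) ^ k := by
    intro ω
    unfold alln
    rw [Ex_sum]
    refine (Finset.sum_le_card_nsmul _ _ _ (fun i _ => hmom ω i)).trans ?_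
    rw [Finset.card_univ, nsmul_eq_mul]
    exact mul_le_mul_of_nonneg_right hcard (by positivity)
  have hupper : Ex (vp p) (fun X : (Fin m × (Fin r → Fin n)) → Bool =>
      ∑ ω, V.prob ω * (((4 * (q : ℝ)) ^ (2 * k) * (((n : ℝ)) ^ m) ^ k) *
        alln (V.mach ω) T k s σ X)) ≤
      (4 * (q : ℝ)) ^ (2 * k) * (((n : ℝ) ^ m) ^ k *
        (2 ^ g * ((n : ℝ) ^ m * (4 / 2 ^ t)) ^ k)) := by
    rw [Ex_sum]
    have h1 : ∀ ω ∈ (univ : Finset V.Ω), Ex (vp p) (fun X : (Fin m × (Fin r → Fin n)) → Bool =>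
        V.prob ω * (((4 * (q : ℝ)) ^ (2 * k) * (((n : ℝ)) ^ m) ^ k) *
          alln (V.mach ω) T k s σ X)) ≤
        V.prob ω * ((4 * (q : ℝ)) ^ (2 * k) * (((n : ℝ) ^ m) ^ k *
        (2 ^ g * ((n : ℝ) ^ m * (4 / 2 ^ t)) ^ k))) := by
      intro ω _
      rw [Ex_smul]
      apply mul_le_mul_of_nonneg_left _ (V.nonneg ω)
      rw [Ex_smul, ← mul_assoc]
      exact mul_le_mul_of_nonneg_left (hall ω) (by positivity)
    refine (Finset.sum_le_sum h1).trans (le_of_eq ?_)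
    rw [← Finset.sum_mul, V.total, one_mul]
  have hE0 : 0 ≤ Ex (vp p) (fun X : (Fin m × (Fin r → Fin n)) → Bool => ∑ a : Fin m → Fin n,
      |V.acc T q (σ X) (π X) - V.acc T q (σ (plant (vr s a) univ X)) (π X)|) := by
    have := Ex_mono (vp_nonneg hp0 hp1) hD0
    rwa [Ex_const (vp_sum p)] at this
  refine q_arith g k t q _ u _ (Nat.cast_nonneg q) hNN hE0 hk hgk hu0 hu4 ?_
  exact (Mb2.Ex_pow hp0 hp1 _ hD0 (2 * k)).trans
    ((Ex_mono (vp_nonneg hp0 hp1) hpt).trans hupper)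

end Pool.Agent.W964.Pram
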