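import Mathlib
import Pool.Agent.W964.Pram.Q.QHard

/-!
The distribution on pairs of an instance and a planted instance, and the final statement about
constraint satisfaction problems.
-/

set_option linter.unusedSectionVars false
set_option linter.style.haveILetI false

namespace Pool.Agent.W964.Pram

open Finset H568R2 H592R3

open Classical in
/-- The distribution of pairs. -/
lemma pair_dist {m n r : ℕ} (s : Fin m → Fin r → Fin m) {p : ℝ} (hp0 : 0 ≤ p) (hp1 : p ≤ 1)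
    (hn : 1 ≤ n)
    (huniq : ∀ a : Fin m → Fin n, Ex (vp p) (fun X : (Fin m × (Fin r → Fin n)) → Bool =>
      if ¬ Uniq s a X then (1 : ℝ) else 0) ≤ 1 / 2) :
    ∃ μ : ((Fin m × (Fin r → Fin n)) → Bool) × (Fin m → Fin n) → ℝ, (∀ u, 0 ≤ μ u) ∧
      ∑ u, μ u = 1 ∧ (∀ u, μ u ≠ 0 → Uniq s u.2 u.1) ∧
      ∀ f : ((Fin m × (Fin r → Fin n)) → Bool) × (Fin m → Fin n) → ℝ, (∀ u, 0 ≤ f u) →
        ∑ u, μ u * f u ≤ (2 / (n : ℝ) ^ m) * Ex (vp p) (fun X => ∑ a, f (X, a)) := by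
  have hNN : (0 : ℝ) < (n : ℝ) ^ m := by
    have : (0 : ℝ) < n := by exact_mod_cast hn
    positivity
  have hμ : ∀ X : (Fin m × (Fin r → Fin n)) → Bool, 0 ≤ ∏ i, vp p (X i) :=
    fun X => Finset.prod_nonneg fun i _ => vp_nonneg hp0 hp1 _
  obtain ⟨Z, hZ⟩ : ∃ Z : ℝ, Z = ∑ u : ((Fin m × (Fin r → Fin n)) → Bool) × (Fin m → Fin n),
    (∏ i, vp p (u.1 i)) * (if Uniq s u.2 u.1 then (1 : ℝ) else 0) := ⟨_, rfl⟩
  have hZ2 : (n : ℝ) ^ m / 2 ≤ Z := by
    rw [hZ, Fintype.sum_prod_type, Finset.sum_comm]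
    have h1 : ∀ a ∈ (univ : Finset (Fin m → Fin n)), (1 / 2 : ℝ) ≤
        ∑ X : (Fin m × (Fin r → Fin n)) → Bool, (∏ i, vp p (X i)) *
          (if Uniq s a X then (1 : ℝ) else 0) := by
      intro a _
      have h2 := huniq a
      have h3 : Ex (vp p) (fun X : (Fin m × (Fin r → Fin n)) → Bool =>
          if Uniq s a X then (1 : ℝ) else 0) + Ex (vp p) (fun X => if ¬ Uniq s a X then
            (1 : ℝ) else 0) = 1 := by
        rw [← Ex_add]
        have h4 : (fun X : (Fin m × (Fin r → Fin n)) → Bool =>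
            (if Uniq s a X then (1 : ℝ) else 0) + (if ¬ Uniq s a X then (1 : ℝ) else 0)) =
            fun _ => 1 := by
          funext X
          by_cases h : Uniq s a X <;> simp [h]
        rw [h4, Ex_const (vp_sum p)]
      have h5 : Ex (vp p) (fun X : (Fin m × (Fin r → Fin n)) → Bool =>
          if Uniq s a X then (1 : ℝ) else 0) = ∑ X : (Fin m × (Fin r → Fin n)) → Bool,
          (∏ i, vp p (X i)) * (if Uniq s a X then (1 : ℝ) else 0) := rfl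
      rw [← h5]
      linarith
    have h6 := Finset.card_nsmul_le_sum _ _ _ h1
    rw [Finset.card_univ, Fintype.card_fun, Fintype.card_fin, Fintype.card_fin,
      nsmul_eq_mul, Nat.cast_pow] at h6
    linarith
  have hZ0 : 0 < Z := lt_of_lt_of_le (by positivity) hZ2
  refine ⟨fun u => (∏ i, vp p (u.1 i)) * (if Uniq s u.2 u.1 then (1 : ℝ) else 0) / Z, ?_, ?_, ?_,
    ?_⟩
  · intro u
    apply div_nonneg _ hZ0.le
    apply mul_nonneg (hμ u.1)
    split_ifs <;> norm_num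
  · rw [← Finset.sum_div, ← hZ, div_self hZ0.ne']
  · intro u hu
    by_contra h
    apply hu
    simp [h]
  · intro f hf
    have h1 : ∑ u : ((Fin m × (Fin r → Fin n)) → Bool) × (Fin m → Fin n),
        (∏ i, vp p (u.1 i)) * (if Uniq s u.2 u.1 then (1 : ℝ) else 0) / Z * f u ≤
        ∑ u : ((Fin m × (Fin r → Fin n)) → Bool) × (Fin m → Fin n),
          (2 / (n : ℝ) ^ m) * ((∏ i, vp p (u.1 i)) * f u) := by
      refine Finset.sum_le_sum fun u _ => ?_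
      have h2 : 1 / Z ≤ 2 / (n : ℝ) ^ m := by
        rw [div_le_div_iff₀ hZ0 hNN]
        linarith
      have h3 : (if Uniq s u.2 u.1 then (1 : ℝ) else 0) ≤ 1 := by split_ifs <;> norm_num
      calc (∏ i, vp p (u.1 i)) * (if Uniq s u.2 u.1 then (1 : ℝ) else 0) / Z * f u
          = (1 / Z) * ((∏ i, vp p (u.1 i)) * f u * (if Uniq s u.2 u.1 then (1 : ℝ) else 0)) := by
            ring
        _ ≤ (1 / Z) * ((∏ i, vp p (u.1 i)) * f u * 1) := by
            apply mul_le_mul_of_nonneg_left _ (by positivity)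
            exact mul_le_mul_of_nonneg_left h3 (mul_nonneg (hμ u.1) (hf u))
        _ ≤ (2 / (n : ℝ) ^ m) * ((∏ i, vp p (u.1 i)) * f u * 1) := by
            apply mul_le_mul_of_nonneg_right h2
            rw [mul_one]
            exact mul_nonneg (hμ u.1) (hf u)
        _ = _ := by ring
    refine h1.trans (le_of_eq ?_)
    rw [← Finset.mul_sum, Fintype.sum_prod_type]
    congr 1
    unfold Ex
    refine Finset.sum_congr rfl fun X _ => ?_
    rw [Finset.mul_sum]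

open Classical in
theorem q_hard (ε : ℝ) (hε : 0 < ε) (hε1 : ε ≤ 1 / 2) (K : ℕ) :
    ∃ Q : ℕ, 6 ≤ Q ∧ Even Q ∧ ∃ C : ℝ, 0 < C ∧
    ∀ n T g w : ℕ, 2 ≤ n → 1 ≤ T → C * (T * Real.log (n + g)) ≤ w → w ≤ n →
    ∃ b m' : ℕ, 1 ≤ b ∧ 2 ≤ m' ∧ 4 * Q + 8 ≤ 3 * T * b ∧
      ar Q * (2 * (3 * T) * b) + 1 ≤ w ∧ Q * m' * (2 * (3 * T) * b + 1) ≤ n ∧
      ∃ s : Fin (Q * m') → Fin (ar Q) → Fin (Q * m'), (∀ i, s i 0 = i) ∧
      ∃ μ : (Vr Q T b m' → Bool) × (Fin (Q * m') → Fin (dom T b)) → ℝ, (∀ u, 0 ≤ μ u) ∧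
      ∑ u, μ u = 1 ∧ (∀ u, μ u ≠ 0 → Uniq s u.2 u.1) ∧
      ∀ (J : Type) (σ : (Vr Q T b m' → Bool) → (J → Bool)), (∀ j, Junta 1 (fun x => σ x j)) →
      ∀ (P : ℕ) (V : QProofs J P), (P : ℝ) ≤ 2 ^ ((1 - ε) * n) → V.Lists (2 ^ (K * n)) →
      Nat.card V.I ≤ 2 ^ g → ∀ (q : ℕ) (π : (Vr Q T b m' → Bool) → V.Str),
        ∑ u, μ u * |V.acc T q (σ u.1) (π u.1) - V.acc T q (σ (plant (vr s u.2) univ u.1)) (π u.1)|
          ≤ q * 2 ^ (-((w : ℝ) / C)) := by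
  obtain ⟨Q, hQ6, hQev, C', hC', hpar⟩ := mom_hard ε hε hε1 K
  obtain ⟨C, hC⟩ : ∃ C : ℝ, C = C' + 96 * ((ar Q : ℕ) : ℝ) := ⟨_, rfl⟩
  have hC0 : 0 < C := by rw [hC]; positivity
  refine ⟨Q, hQ6, hQev, C, hC0, ?_⟩
  intro n T g w hn hT hw hwn
  have hnR : (2 : ℝ) ≤ n := by exact_mod_cast hn
  have hlog : 0 ≤ Real.log ((n : ℝ) + g) := by
    apply Real.log_nonneg
    have : (0 : ℝ) ≤ g := Nat.cast_nonneg g
    linarith
  obtain ⟨b, m', k, hb, hm', hk, hB2, hgk, hg8, hBw, hQn, hexp, hwb, s, hs, huniq, hmom⟩ :=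
    hpar n T g w hn hT (by
      refine le_trans ?_ hw
      apply mul_le_mul_of_nonneg_right _ (by positivity)
      rw [hC]
      have : (0 : ℝ) ≤ 96 * ((ar Q : ℕ) : ℝ) := by positivity
      linarith) hwn
  have hp0 : 0 ≤ dens T b := by unfold dens; positivity
  have hp1 : dens T b ≤ 1 := by
    have h1 : (1 : ℝ) ≤ ((2 : ℝ) ^ (3 * T * b)) ^ 3 := one_le_pow₀ (one_le_pow₀ (by norm_num))
    have h2 : 1 / ((2 : ℝ) ^ (3 * T * b)) ^ 3 ≤ 1 := by
      rw [div_le_one (by positivity)]; exact h1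
    unfold dens
    linarith
  obtain ⟨μ, hμ0, hμ1, hμU, hμf⟩ := pair_dist s hp0 hp1 Nat.one_le_two_pow huniq
  refine ⟨b, m', hb, hm', hB2, hBw, hQn, s, hs, μ, hμ0, hμ1, hμU, ?_⟩
  intro J σ hσ P V hP hL hI q π
  obtain ⟨t, ht⟩ : ∃ t, t = 3 * T * b := ⟨_, rfl⟩
  have h1 := hμf (fun u => |V.acc T q (σ u.1) (π u.1) -
    V.acc T q (σ (plant (vr s u.2) univ u.1)) (π u.1)|) (fun u => abs_nonneg _)
  refine h1.trans ?_
  have h2 := q_mean V T q g k t s σ hp0 hp1 Nat.one_le_two_pow hk (by rw [ht]; exact hgk) hI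
    (fun ω i => by rw [ht]; exact hmom J σ hσ P (V.mach ω i) hP (hL ω i)) π
  obtain ⟨NN, hNN⟩ : ∃ NN : ℝ, NN = (((dom T b : ℕ) : ℝ)) ^ (Q * m') := ⟨_, rfl⟩
  have hNN0 : 0 < NN := by rw [hNN]; unfold dom; positivity
  rw [← hNN] at h2 ⊢
  have h3 : (16 : ℝ) / 2 ^ ((t : ℝ) / 4) ≤ 2 ^ (-((w : ℝ) / C)) := by
    have h4 : (2 : ℝ) ^ (4 : ℝ) ≤ 2 ^ ((t : ℝ) / 6) := by
      apply Real.rpow_le_rpow_of_exponent_le (by norm_num)
      have : ((24 : ℕ) : ℝ) ≤ (t : ℝ) := by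
        rw [ht]
        exact_mod_cast (by omega : 24 ≤ 3 * T * b)
      push_cast at this
      linarith
    have h5 : (2 : ℝ) ^ ((t : ℝ) / 4) = 2 ^ ((t : ℝ) / 6) * 2 ^ ((t : ℝ) / 12) := by
      rw [← Real.rpow_add (by norm_num)]
      congr 1
      ring
    have h6 : (2 : ℝ) ^ ((w : ℝ) / C) ≤ 2 ^ ((t : ℝ) / 12) := by
      apply Real.rpow_le_rpow_of_exponent_le (by norm_num)
      rw [div_le_div_iff₀ hC0 (by norm_num)]
      have h7 : (w : ℝ) ≤ 8 * ((ar Q : ℕ) : ℝ) * (t : ℝ) := by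
        have : ((w : ℕ) : ℝ) ≤ ((8 * ar Q * (3 * T * b) : ℕ) : ℝ) := by exact_mod_cast hwb
        rw [← ht, Nat.cast_mul, Nat.cast_mul] at this
        exact_mod_cast this
      have h8 : 96 * ((ar Q : ℕ) : ℝ) * t ≤ C * t := by
        apply mul_le_mul_of_nonneg_right _ (Nat.cast_nonneg t)
        rw [hC]
        linarith
      linarith
    rw [Real.rpow_neg (by norm_num), ← one_div, div_le_div_iff₀ (by positivity) (by positivity),
      h5, one_mul]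
    have h9 : (16 : ℝ) ≤ 2 ^ ((t : ℝ) / 6) := by
      refine le_trans (le_of_eq ?_) h4
      norm_num
    exact mul_le_mul h9 h6 (by positivity) (by positivity)
  calc 2 / NN * Ex (vp (dens T b)) (fun X : Vr Q T b m' → Bool =>
        ∑ a : Fin (Q * m') → Fin (dom T b), |V.acc T q (σ X) (π X) -
        V.acc T q (σ (plant (vr s a) univ X)) (π X)|)
      ≤ 2 / NN * (q * (8 * NN / 2 ^ ((t : ℝ) / 4))) :=
        mul_le_mul_of_nonneg_left h2 (by positivity)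
    _ = q * (16 / 2 ^ ((t : ℝ) / 4)) := by
        field_simp
        ring
    _ ≤ q * 2 ^ (-((w : ℝ) / C)) := mul_le_mul_of_nonneg_left h3 (Nat.cast_nonneg q)

end Pool.Agent.W964.Pram
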