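import Mathlib
import Pool.Agent.W964.Pram.Q.Pairs
import Pool.Agent.H592R3.Cnf3

/-!
Planted constraint satisfaction problems as CNF formulas.
-/

set_option linter.unusedSectionVars false

namespace Pool.Agent.W964.Pram

open Finset H568R2 H592R3 SmallDepth

/-- The encoding of the constraint satisfaction problem by CNF formulas. -/
theorem cnf_map (Q T b m' n w M : ℕ) (hn : 2 ≤ n) (hb : 1 ≤ b) (hT : 1 ≤ T)
    (hBw : ar Q * (2 * (3 * T) * b) + 1 ≤ w) (hQn : Q * m' * (2 * (3 * T) * b + 1) ≤ n)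
    (hM : n * 2 ^ w ≤ M) (s : Fin (Q * m') → Fin (ar Q) → Fin (Q * m')) :
    ∃ σ : (Vr Q T b m' → Bool) → (Fin M × Fin n × Bool → Bool),
      (∀ j, Junta 1 (fun x => σ x j)) ∧ (∀ X, WidthLe (σ X) w) ∧
      (∀ X, (∃ α, Models (σ X) α) ↔ Sat s X) ∧
      (∀ X, AtMostOne s X → Sat s X → ∃! α, Models (σ X) α) := by
  classical
  have hℓ2 : 2 ≤ 2 * (3 * T) * b := by
    have h1 : 1 ≤ T * b := Nat.one_le_iff_ne_zero.2 (by positivity)
    have : 2 * (3 * T) * b = 6 * (T * b) := by ring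
    omega
  have hcard1 : Q * m' * (2 * (3 * T) * b) ≤ n := by
    refine le_trans ?_ hQn
    exact Nat.mul_le_mul_left _ (by omega)
  obtain ⟨e⟩ : Nonempty ((Fin (Q * m') × Fin (2 * (3 * T) * b)) ↪ Fin n) := by
    apply Function.Embedding.nonempty_of_card_le
    rw [Fintype.card_prod, Fintype.card_fin, Fintype.card_fin, Fintype.card_fin]
    exact hcard1
  obtain ⟨dec⟩ : Nonempty ((Fin (2 * (3 * T) * b) → Bool) ≃ Fin (2 ^ (2 * (3 * T) * b))) :=
    ⟨Fintype.equivFinOfCardEq (by simp)⟩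
  have hn0 : 0 < n := by omega
  have hcard2 : Q * m' * (2 ^ (2 * (3 * T) * b)) ^ (ar Q) + n ≤ M := by
    refine le_trans ?_ hM
    have h1 : (2 ^ (2 * (3 * T) * b)) ^ (ar Q) ≤ 2 ^ w := by
      rw [← pow_mul]
      apply Nat.pow_le_pow_right (by norm_num)
      rw [mul_comm]; omega
    have h2 : 2 * (Q * m') ≤ n := by
      refine le_trans ?_ hcard1
      rw [mul_comm]
      exact Nat.mul_le_mul_left _ hℓ2
    have h3 : 2 ≤ 2 ^ w := by
      calc 2 = 2 ^ 1 := (pow_one 2).symm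
        _ ≤ 2 ^ w := Nat.pow_le_pow_right (by norm_num) (by omega)
    have h4 : 2 * (Q * m' * (2 ^ (2 * (3 * T) * b)) ^ (ar Q)) ≤ n * 2 ^ w := by
      calc 2 * (Q * m' * (2 ^ (2 * (3 * T) * b)) ^ (ar Q)) =
          (2 * (Q * m')) * (2 ^ (2 * (3 * T) * b)) ^ (ar Q) := by ring
        _ ≤ n * 2 ^ w := Nat.mul_le_mul h2 h1
    have h5 : 2 * n ≤ n * 2 ^ w := by
      rw [mul_comm]; exact Nat.mul_le_mul_left _ h3
    omega
  obtain ⟨π, hπ⟩ : ∃ π : Fin M → (Fin (Q * m') × (Fin (ar Q) →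
      Fin (2 ^ (2 * (3 * T) * b)))) ⊕ Fin n, Function.Surjective π := by
    have : Nonempty ((Fin (Q * m') × (Fin (ar Q) →
      Fin (2 ^ (2 * (3 * T) * b)))) ⊕ Fin n) := ⟨Sum.inr ⟨0, hn0⟩⟩
    obtain ⟨g⟩ : Nonempty (((Fin (Q * m') × (Fin (ar Q) →
      Fin (2 ^ (2 * (3 * T) * b)))) ⊕ Fin n) ↪ Fin M) := by
      apply Function.Embedding.nonempty_of_card_le
      rw [Fintype.card_sum, Fintype.card_prod, Fintype.card_fun, Fintype.card_fin,
        Fintype.card_fin, Fintype.card_fin, Fintype.card_fin, Fintype.card_fin]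
      exact hcard2
    exact ⟨Function.invFun g, Function.invFun_surjective g.injective⟩
  have hw2 : 2 ≤ w := by
    have h1 : 1 * 2 ≤ ar Q * (2 * (3 * T) * b) := Nat.mul_le_mul (by unfold ar; omega) hℓ2
    omega
  refine ⟨fun X => cnfOf s e dec ⟨0, hn0⟩ π X, cnfOf_junta s e dec ⟨0, hn0⟩ π,
    fun X => cnfOf_width (by omega) (by omega) X, fun X => cnfOf_sat hπ X, ?_⟩
  intro X h1 h2
  obtain ⟨α, hα⟩ := (cnfOf_sat hπ X).2 h2
  exact ⟨α, hα, fun β hβ => cnfOf_unique hπ X h1 β α hβ hα⟩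

end Pool.Agent.W964.Pram
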