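import Mathlib
import Pool.Agent.W964.Pram.Q.CnfMap

/-!
Satisfiability of CNF formulas is hard for quantum algorithms that call parallel machines, and
unsatisfiability has no quantum proofs whose verifier calls parallel machines.
-/

set_option linter.unusedSectionVars false
set_option linter.style.haveILetI false

namespace Pool.Agent.W964.Pram

open Finset H568R2 H592R3 SmallDepth

lemma uniq_unsat {m r N : ℕ} (hm : 1 ≤ m) {s : Fin m → Fin r → Fin m} {a : Fin m → Fin N}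
    {X : (Fin m × (Fin r → Fin N)) → Bool} (hU : Uniq s a X) : ¬ Sat s X := by
  classical
  intro hsat
  have h4 : plant (vr s a) (∅ : Finset (Fin m)) X = X := by
    funext i
    unfold plant
    simp
  rw [← h4, uniq_sat hU] at hsat
  have h6 : (⟨0, by omega⟩ : Fin m) ∈ (univ : Finset (Fin m)) := Finset.mem_univ _
  rw [← hsat] at h6
  simp at h6

/-- A quantum algorithm as a proof system without provers. -/
noncomputable def QAlg.asProofs {J : Type} {P : ℕ} {I : Type} [Fintype I] {mach : I → Machine J P}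
    (A : QAlg mach) : QProofs J P where
  Ω := Unit
  fin := inferInstance
  prob := fun _ => 1
  nonneg := fun _ => zero_le_one
  total := by simp
  I := I
  finI := inferInstance
  mach := fun _ => mach
  Str := Unit
  alg := fun _ _ => A

lemma QAlg.asProofs_acc {J : Type} {P : ℕ} {I : Type} [Fintype I] {mach : I → Machine J P}
    (A : QAlg mach) (T q : ℕ) (x : J → Bool) (π : Unit) :
    A.asProofs.acc T q x π = A.acc T q x := by
  show ∑ _ω : Unit, (1 : ℝ) * A.acc T q x = A.acc T q x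
  simp

open Classical in
theorem q_sat (ε : ℝ) (hε : 0 < ε) (Kc : ℕ) : ∃ C : ℝ, 0 < C ∧
    ∀ n T g w M : ℕ, 2 ≤ n → 1 ≤ T → C * (T * Real.log (n + g)) ≤ w → w ≤ n → n * 2 ^ w ≤ M →
    ∃ ν₀ ν₁ : ((Fin M × Fin n × Bool) → Bool) → ℝ,
      ((∀ x, 0 ≤ ν₀ x) ∧ ∑ x, ν₀ x = 1) ∧ ((∀ x, 0 ≤ ν₁ x) ∧ ∑ x, ν₁ x = 1) ∧
      (∀ x, ν₀ x ≠ 0 → WidthLe x w ∧ ¬ ∃ α, Models x α) ∧
      (∀ x, ν₁ x ≠ 0 → WidthLe x w ∧ ∃! α, Models x α) ∧
      (∀ (P : ℕ) (I : Type) [Fintype I] (mach : I → Machine (Fin M × Fin n × Bool) P)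
        (A : QAlg mach), (P : ℝ) ≤ 2 ^ ((1 - ε) * n) → (∀ i, (mach i).Lists (2 ^ (Kc * n))) →
        Fintype.card I ≤ 2 ^ g → ∀ q : ℕ,
        |(∑ x, ν₀ x * A.acc T q x) - ∑ x, ν₁ x * A.acc T q x| ≤ q * 2 ^ (-((w : ℝ) / C))) ∧
      (∀ (P : ℕ) (V : QProofs (Fin M × Fin n × Bool) P), (P : ℝ) ≤ 2 ^ ((1 - ε) * n) →
        V.Lists (2 ^ (Kc * n)) → Nat.card V.I ≤ 2 ^ g → ∀ (q : ℕ) (γ : ℝ),
        (∀ x, WidthLe x w → (¬ ∃ α, Models x α) →
          ∃ π, γ + q * 2 ^ (-((w : ℝ) / C)) ≤ V.acc T q x π) →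
        ∃ x, WidthLe x w ∧ (∃! α, Models x α) ∧ ∃ π, γ ≤ V.acc T q x π) := by
  obtain ⟨ε', hε'⟩ : ∃ ε' : ℝ, ε' = min ε (1 / 2) := ⟨_, rfl⟩
  have hε'0 : 0 < ε' := by rw [hε']; exact lt_min hε (by norm_num)
  have hε'1 : ε' ≤ 1 / 2 := by rw [hε']; exact min_le_right _ _
  have hε'2 : ε' ≤ ε := by rw [hε']; exact min_le_left _ _
  obtain ⟨Q, hQ6, _, C, hC, hpar⟩ := q_hard ε' hε'0 hε'1 Kc
  refine ⟨C, hC, ?_⟩
  intro n T g w M hn hT hw hwn hM
  obtain ⟨b, m', hb, hm', hB2, hBw, hQn, s, hs, μ, hμ0, hμ1, hμU, hmain⟩ :=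
    hpar n T g w hn hT hw hwn
  obtain ⟨σ, hσ, hσw, hσs, hσu⟩ := cnf_map Q T b m' n w M hn hb hT hBw hQn hM s
  have hQm : 1 ≤ Q * m' := Nat.one_le_iff_ne_zero.2 (by positivity)
  have hPle : ∀ P : ℕ, (P : ℝ) ≤ 2 ^ ((1 - ε) * n) → (P : ℝ) ≤ 2 ^ ((1 - ε') * n) := by
    intro P hP
    refine hP.trans ?_
    apply Real.rpow_le_rpow_of_exponent_le (by norm_num)
    exact mul_le_mul_of_nonneg_right (by linarith) (Nat.cast_nonneg n)
  refine ⟨push μ (fun u => σ u.1), push μ (fun u => σ (plant (vr s u.2) univ u.1)),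
    ⟨push_nonneg _ _ hμ0, by rw [push_total, hμ1]⟩, ⟨push_nonneg _ _ hμ0, by
      rw [push_total, hμ1]⟩, ?_, ?_, ?_, ?_⟩
  · intro x hx
    have hx' : ∃ u, μ u ≠ 0 ∧ σ u.1 = x := by
      unfold push at hx
      obtain ⟨u, _, hu⟩ := Finset.exists_ne_zero_of_sum_ne_zero hx
      by_cases h : σ u.1 = x
      · rw [if_pos h] at hu
        exact ⟨u, hu, h⟩
      · rw [if_neg h] at hu
        exact absurd rfl hu
    obtain ⟨u, hu, rfl⟩ := hx'
    exact ⟨hσw _, fun h => uniq_unsat hQm (hμU u hu) ((hσs _).1 h)⟩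
  · intro x hx
    have hx' : ∃ u, μ u ≠ 0 ∧ σ (plant (vr s u.2) univ u.1) = x := by
      unfold push at hx
      obtain ⟨u, _, hu⟩ := Finset.exists_ne_zero_of_sum_ne_zero hx
      by_cases h : σ (plant (vr s u.2) univ u.1) = x
      · rw [if_pos h] at hu
        exact ⟨u, hu, h⟩
      · rw [if_neg h] at hu
        exact absurd rfl hu
    obtain ⟨u, hu, rfl⟩ := hx'
    exact ⟨hσw _, hσu _ (uniq_atMostOne (hμU u hu) univ) ((uniq_sat (hμU u hu) univ).2 rfl)⟩
  · intro P I _ mach A hP hL hI q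
    rw [push_sum _ _ (fun x => A.acc T q x), push_sum _ _ (fun x => A.acc T q x),
      ← Finset.sum_sub_distrib]
    have h1 := hmain (Fin M × Fin n × Bool) σ hσ P A.asProofs (hPle P hP) (fun _ i => hL i)
      (by
        show Nat.card I ≤ 2 ^ g
        rw [Nat.card_eq_fintype_card]
        exact hI) q (fun _ => ())
    refine ((Finset.abs_sum_le_sum_abs _ _).trans (le_of_eq ?_)).trans h1
    refine Finset.sum_congr rfl fun u _ => ?_
    rw [← mul_sub, abs_mul, abs_of_nonneg (hμ0 u), A.asProofs_acc, A.asProofs_acc]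
  · intro P V hP hL hI q γ hyes
    by_contra hcon
    push Not at hcon
    have hex : ∀ X : Vr Q T b m' → Bool, ∃ π : V.Str, ¬ Sat s X →
        γ + q * 2 ^ (-((w : ℝ) / C)) ≤ V.acc T q (σ X) π := by
      -- there is an unsatisfiable instance
      obtain ⟨u, hu⟩ : ∃ u, μ u ≠ 0 := by
        by_contra h
        push Not at h
        simp [h] at hμ1
      intro X
      by_cases hX : Sat s X
      · obtain ⟨π, _⟩ := hyes (σ u.1) (hσw _) (fun h =>
          uniq_unsat hQm (hμU u hu) ((hσs _).1 h))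
        exact ⟨π, fun h => absurd hX h⟩
      · obtain ⟨π, hπ⟩ := hyes (σ X) (hσw _) (fun h => hX ((hσs _).1 h))
        exact ⟨π, fun _ => hπ⟩
    choose π hπ using hex
    have h1 := hmain (Fin M × Fin n × Bool) σ hσ P V (hPle P hP) hL hI q π
    have h2 : q * 2 ^ (-((w : ℝ) / C)) < ∑ u, μ u *
        |V.acc T q (σ u.1) (π u.1) - V.acc T q (σ (plant (vr s u.2) univ u.1)) (π u.1)| := by
      have h3 : q * 2 ^ (-((w : ℝ) / C)) = ∑ u, μ u * (q * 2 ^ (-((w : ℝ) / C))) := by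
        rw [← Finset.sum_mul, hμ1, one_mul]
      rw [h3]
      obtain ⟨u, hu⟩ : ∃ u, μ u ≠ 0 := by
        by_contra h
        push Not at h
        simp [h] at hμ1
      have h4 : ∀ u, μ u ≠ 0 → q * 2 ^ (-((w : ℝ) / C)) <
          |V.acc T q (σ u.1) (π u.1) - V.acc T q (σ (plant (vr s u.2) univ u.1)) (π u.1)| := by
        intro u hu
        have h5 := hπ u.1 (uniq_unsat hQm (hμU u hu))
        have h6 := hcon _ (hσw _) (hσu _ (uniq_atMostOne (hμU u hu) univ)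
          ((uniq_sat (hμU u hu) univ).2 rfl)) (π u.1)
        refine lt_of_lt_of_le ?_ (le_abs_self _)
        linarith
      apply Finset.sum_lt_sum
      · intro u _
        by_cases hu : μ u = 0
        · rw [hu, zero_mul, zero_mul]
        · exact mul_le_mul_of_nonneg_left (h4 u hu).le (hμ0 u)
      · exact ⟨u, Finset.mem_univ u, mul_lt_mul_of_pos_left (h4 u hu)
          (lt_of_le_of_ne (hμ0 u) (Ne.symm hu))⟩
    linarith

end Pool.Agent.W964.Pram
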