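import Mathlib
import Pool.Agent.W964.Pram.Q.QSat
import Pool.Agent.W964.Pram.Ip.Asym

/-!
Quantum algorithms that call parallel machines, and quantum proofs: the asymptotic statements.
-/

set_option linter.unusedSectionVars false

namespace Pool.Agent.W964.Pram

open Finset SmallDepth Filter

/-- The error is small. -/
lemma small_q {C w : ℝ} {T n c q : ℕ} (hC : 0 < C) (hn : 6 ≤ n) (hT : 1 ≤ T)
    (hw : 4 * C * (T * Real.log (n + (n ^ c : ℕ))) ≤ w) (hq : q ≤ n ^ (c * T)) :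
    (q : ℝ) * 2 ^ (-(w / C)) ≤ 1 / 6 := by
  have hnR : (6 : ℝ) ≤ n := by exact_mod_cast hn
  have hTR : (1 : ℝ) ≤ T := by exact_mod_cast hT
  have hnc : (0 : ℝ) < ((n ^ c : ℕ) : ℝ) := by
    have : 0 < n ^ c := by positivity
    exact_mod_cast this
  obtain ⟨L, hL⟩ : ∃ L : ℝ, L = Real.log (n + (n ^ c : ℕ)) := ⟨_, rfl⟩
  rw [← hL] at hw
  have hL6 : Real.log 6 ≤ L := by
    rw [hL]
    exact Real.log_le_log (by norm_num) (by linarith)
  have hL0 : 0 ≤ L := le_trans (Real.log_nonneg (by norm_num)) hL6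
  have hl2 : (1 : ℝ) / 2 ≤ Real.log 2 := by
    have := Real.log_two_gt_d9
    linarith
  have h1 : (2 : ℝ) ^ (-(w / C)) ≤ Real.exp (-(2 * (T * L))) := by
    rw [Real.rpow_def_of_pos (by norm_num)]
    apply Real.exp_le_exp.2
    have h2 : 4 * (T * L) ≤ w / C := by
      rw [le_div_iff₀ hC]
      linarith
    have h3 : 0 ≤ (T : ℝ) * L := by positivity
    have h4 : (1 / 2) * (w / C) ≤ Real.log 2 * (w / C) :=
      mul_le_mul_of_nonneg_right hl2 (by linarith)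
    have h5 : Real.log 2 * -(w / C) = -(Real.log 2 * (w / C)) := by ring
    rw [h5]
    linarith
  have h2 : (q : ℝ) ≤ Real.exp (T * L) := by
    have h3 : (q : ℝ) ≤ ((n ^ c : ℕ) : ℝ) ^ T := by
      have : q ≤ (n ^ c) ^ T := by rwa [← pow_mul]
      exact_mod_cast this
    refine h3.trans ?_
    have h4 : ((n ^ c : ℕ) : ℝ) ≤ Real.exp L := by
      rw [hL, Real.exp_log (by positivity)]
      linarith
    calc ((n ^ c : ℕ) : ℝ) ^ T ≤ (Real.exp L) ^ T := pow_le_pow_left₀ hnc.le h4 T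
      _ = Real.exp (T * L) := by rw [← Real.exp_nat_mul]
  calc (q : ℝ) * 2 ^ (-(w / C)) ≤ Real.exp (T * L) * Real.exp (-(2 * (T * L))) :=
        mul_le_mul h2 h1 (by positivity) (Real.exp_pos _).le
    _ = Real.exp (-(T * L)) := by
        rw [← Real.exp_add]
        congr 1
        ring
    _ ≤ Real.exp (-Real.log 6) := by
        apply Real.exp_le_exp.2
        have : 1 * L ≤ T * L := mul_le_mul_of_nonneg_right hTR hL0
        linarith
    _ = 1 / 6 := by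
        rw [Real.exp_neg, Real.exp_log (by norm_num)]
        norm_num

theorem q_q1 (δ : ℝ) (hδ : 0 < δ) (hδ2 : δ < 2) (Kc c : ℕ) (T : ℕ → ℕ)
    (hT : ∀ n, 1 ≤ T n)
    (hTo : (fun n : ℕ => (T n : ℝ) * Real.log n) =o[atTop] (fun n : ℕ => (n : ℝ))) :
    ∃ w : ℕ → ℕ, (∃ C : ℝ, ∀ n, 2 ≤ n → (w n : ℝ) ≤ C * (T n * Real.log n)) ∧
      ∀ e : ℕ, ∀ᶠ n : ℕ in atTop,
        (∀ (P : ℕ) (I : Type) [Fintype I]
          (mach : I → Machine (Fin (n * 2 ^ w n) × Fin n × Bool) P) (A : QAlg mach) (q : ℕ),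
          (P : ℝ) ≤ (2 - δ) ^ n * (e * (((n * 2 ^ w n : ℕ) : ℝ)) ^ e) →
          (∀ i, (mach i).Lists (2 ^ (Kc * n))) → Fintype.card I ≤ 2 ^ (n ^ c) →
          q ≤ n ^ (c * T n) →
          ∃ x, WidthLe x (w n) ∧ (((¬ ∃ α, Models x α) ∧ 1 / 3 < A.acc (T n) q x) ∨
            ((∃! α, Models x α) ∧ A.acc (T n) q x < 2 / 3))) ∧
        (∀ (P : ℕ) (V : QProofs (Fin (n * 2 ^ w n) × Fin n × Bool) P) (q : ℕ),
          (P : ℝ) ≤ (2 - δ) ^ n * (e * (((n * 2 ^ w n : ℕ) : ℝ)) ^ e) →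
          V.Lists (2 ^ (Kc * n)) → Nat.card V.I ≤ 2 ^ (n ^ c) → q ≤ n ^ (c * T n) →
          (∀ x, WidthLe x (w n) → (¬ ∃ α, Models x α) → ∃ π, 2 / 3 ≤ V.acc (T n) q x π) →
          ∃ x, WidthLe x (w n) ∧ (∃! α, Models x α) ∧ ∃ π, 1 / 3 < V.acc (T n) q x π) := by
  classical
  obtain ⟨ε, hε, has⟩ := asym δ hδ hδ2
  obtain ⟨C, hC, H⟩ := q_sat ε hε Kc
  obtain ⟨w, hw1, hw2, hw3⟩ := has (4 * C) (by positivity) c T hT hTo
  refine ⟨w, hw1, fun e => ?_⟩
  filter_upwards [hw3 e, eventually_ge_atTop 6] with n hn hn6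
  obtain ⟨hn2, hwn, hwC, _, hPn⟩ := hn
  have hnR : (2 : ℝ) ≤ n := by exact_mod_cast hn2
  have hw4 := hw2 n hn2
  have hw5 : C * (T n * Real.log (n + (n ^ c : ℕ))) ≤ w n := by
    have h1 : 0 ≤ (T n : ℝ) * Real.log (n + (n ^ c : ℕ)) := by
      apply mul_nonneg (Nat.cast_nonneg _)
      apply Real.log_nonneg
      have : (0 : ℝ) ≤ ((n ^ c : ℕ) : ℝ) := Nat.cast_nonneg _
      linarith
    have h2 : C * (T n * Real.log (n + (n ^ c : ℕ))) ≤
        4 * C * (T n * Real.log (n + (n ^ c : ℕ))) :=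
      mul_le_mul_of_nonneg_right (by linarith) h1
    linarith
  obtain ⟨ν₀, ν₁, h0, h1, hs0, hs1, hA, hV⟩ := H n (T n) (n ^ c) (w n) (n * 2 ^ w n) hn2 (hT n)
    hw5 (by omega) le_rfl
  constructor
  · intro P I _ mach A q hP hL hI hq
    have h2 := hA P I mach A (hP.trans hPn) hL hI q
    have h3 := small_q hC hn6 (hT n) hw4 hq
    by_contra hcon
    push Not at hcon
    have h4 : ∑ x, ν₀ x * A.acc (T n) q x ≤ 1 / 3 := by
      calc ∑ x, ν₀ x * A.acc (T n) q x ≤ ∑ x, ν₀ x * (1 / 3) := by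
            refine Finset.sum_le_sum fun x _ => ?_
            by_cases hx : ν₀ x = 0
            · rw [hx, zero_mul, zero_mul]
            · apply mul_le_mul_of_nonneg_left _ (h0.1 x)
              exact (hcon x (hs0 x hx).1).1 (by
                have := (hs0 x hx).2
                push Not at this
                exact this)
        _ = 1 / 3 := by rw [← Finset.sum_mul, h0.2, one_mul]
    have h5 : 2 / 3 ≤ ∑ x, ν₁ x * A.acc (T n) q x := by
      calc (2 / 3 : ℝ) = ∑ x, ν₁ x * (2 / 3) := by rw [← Finset.sum_mul, h1.2, one_mul]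
        _ ≤ ∑ x, ν₁ x * A.acc (T n) q x := by
            refine Finset.sum_le_sum fun x _ => ?_
            by_cases hx : ν₁ x = 0
            · rw [hx, zero_mul, zero_mul]
            · apply mul_le_mul_of_nonneg_left _ (h1.1 x)
              exact (hcon x (hs1 x hx).1).2 (hs1 x hx).2
    have h6 := (abs_le.1 h2).1
    linarith
  · intro P V q hP hL hI hq hyes
    have h3 := small_q hC hn6 (hT n) hw4 hq
    obtain ⟨x, hx1, hx2, π, hπ⟩ := hV P V (hP.trans hPn) hL hI q (1 / 2) (by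
      intro x hx1 hx2
      obtain ⟨π, hπ⟩ := hyes x hx1 hx2
      exact ⟨π, by linarith⟩)
    exact ⟨x, hx1, hx2, π, by linarith⟩

end Pool.Agent.W964.Pram
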