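import Mathlib
import Pool.Agent.W964.Pram.Q.QFinal

/-!
Sound quantum proof systems whose verifiers call parallel machines refute few formulas.
-/

set_option linter.unusedSectionVars false
set_option linter.style.haveILetI false

namespace Pool.Agent.W964.Pram

open Finset H568R2 H592R3 SmallDepth Filter

open Classical in
theorem q_refute (ε : ℝ) (hε : 0 < ε) (Kc : ℕ) : ∃ C : ℝ, 0 < C ∧
    ∀ n T g w M : ℕ, 2 ≤ n → 1 ≤ T → C * (T * Real.log (n + g)) ≤ w → w ≤ n → n * 2 ^ w ≤ M →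
    ∃ ν : ((Fin M × Fin n × Bool) → Bool) → ℝ,
      (∀ x, 0 ≤ ν x) ∧ ∑ x, ν x = 1 ∧ (∀ x, ν x ≠ 0 → WidthLe x w ∧ ¬ ∃ α, Models x α) ∧
      ∀ (P : ℕ) (V : QProofs (Fin M × Fin n × Bool) P), (P : ℝ) ≤ 2 ^ ((1 - ε) * n) →
        V.Lists (2 ^ (Kc * n)) → Nat.card V.I ≤ 2 ^ g → ∀ (q : ℕ) (γ η : ℝ),
        (∀ x, WidthLe x w → (∃! α, Models x α) → ∀ π, V.acc T q x π ≤ γ) →
        η * (∑ x, if ∃ π, γ + η ≤ V.acc T q x π then ν x else 0) ≤
          q * 2 ^ (-((w : ℝ) / C)) := by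
  obtain ⟨ε', hε'⟩ : ∃ ε' : ℝ, ε' = min ε (1 / 2) := ⟨_, rfl⟩
  have hε'0 : 0 < ε' := by rw [hε']; exact lt_min hε (by norm_num)
  have hε'1 : ε' ≤ 1 / 2 := by rw [hε']; exact min_le_right _ _
  have hε'2 : ε' ≤ ε := by rw [hε']; exact min_le_left _ _
  obtain ⟨Q, hQ6, _, C, hC, hpar⟩ := q_hard ε' hε'0 hε'1 Kc
  refine ⟨C, hC, ?_⟩
  intro n T g w M hn hT hw hwn hM
  obtain ⟨b, m', hb, hm', hB2, hBw, hQn, s, hs, μ, hμ0, hμ1, hμU, hmain⟩ :=
    hpar n T g w hn hT hw hwn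
  obtain ⟨σ, hσ, hσw, hσs, hσu⟩ := cnf_map Q T b m' n w M hn hb hT hBw hQn hM s
  have hQm : 1 ≤ Q * m' := Nat.one_le_iff_ne_zero.2 (by positivity)
  refine ⟨push μ (fun u => σ u.1), push_nonneg _ _ hμ0, by rw [push_total, hμ1], ?_, ?_⟩
  · intro x hx
    have hx' : ∃ u, μ u ≠ 0 ∧ σ u.1 = x := by
      unfold push at hx
      obtain ⟨u, _, hu⟩ := Finset.exists_ne_zero_of_sum_ne_zero hx
      by_cases h : σ u.1 = x
      · rw [if_pos h] at hu
        exact ⟨u, hu, h⟩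
      · rw [if_neg h] at hu
        exact absurd rfl hu
    obtain ⟨u, hu, rfl⟩ := hx'
    exact ⟨hσw _, fun h => uniq_unsat hQm (hμU u hu) ((hσs _).1 h)⟩
  · intro P V hP hL hI q γ η hsound
    have hP' : (P : ℝ) ≤ 2 ^ ((1 - ε') * n) := by
      refine hP.trans ?_
      apply Real.rpow_le_rpow_of_exponent_le (by norm_num)
      exact mul_le_mul_of_nonneg_right (by linarith) (Nat.cast_nonneg n)
    have hR : 0 ≤ (q : ℝ) * 2 ^ (-((w : ℝ) / C)) := by positivity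
    have hsum : (∑ x, if ∃ π, γ + η ≤ V.acc T q x π then push μ (fun u => σ u.1) x else 0) =
        ∑ u, μ u * (if ∃ π, γ + η ≤ V.acc T q (σ u.1) π then (1 : ℝ) else 0) := by
      rw [← push_sum μ (fun u => σ u.1) (fun x => if ∃ π, γ + η ≤ V.acc T q x π then
        (1 : ℝ) else 0)]
      refine Finset.sum_congr rfl fun x _ => ?_
      split_ifs <;> simp
    rw [hsum]
    by_cases hη : 0 ≤ η
    swap
    · refine le_trans (mul_nonpos_of_nonpos_of_nonneg (le_of_not_ge hη) ?_) hR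
      refine Finset.sum_nonneg fun u _ => mul_nonneg (hμ0 u) ?_
      split_ifs <;> norm_num
    by_cases hno : ∀ X : Vr Q T b m' → Bool, ¬ ∃ π, γ + η ≤ V.acc T q (σ X) π
    · have h0 : ∑ u, μ u * (if ∃ π, γ + η ≤ V.acc T q (σ u.1) π then (1 : ℝ) else 0) = 0 := by
        apply Finset.sum_eq_zero
        intro u _
        rw [if_neg (hno u.1), mul_zero]
      rw [h0, mul_zero]
      exact hR
    · push Not at hno
      obtain ⟨X₀, π₀, _⟩ := hno
      have hex : ∀ X : Vr Q T b m' → Bool, ∃ π : V.Str,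
          (∃ π, γ + η ≤ V.acc T q (σ X) π) → γ + η ≤ V.acc T q (σ X) π := by
        intro X
        by_cases hX : ∃ π, γ + η ≤ V.acc T q (σ X) π
        · obtain ⟨π, hπ⟩ := hX
          exact ⟨π, fun _ => hπ⟩
        · exact ⟨π₀, fun h => absurd h hX⟩
      choose π hπ using hex
      refine le_trans ?_ (hmain (Fin M × Fin n × Bool) σ hσ P V hP' hL hI q π)
      rw [Finset.mul_sum]
      refine Finset.sum_le_sum fun u _ => ?_
      by_cases hu : μ u = 0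
      · rw [hu]; simp
      · by_cases hX : ∃ π, γ + η ≤ V.acc T q (σ u.1) π
        · rw [if_pos hX]
          have h5 := hπ u.1 hX
          have h6 := hsound _ (hσw _) (hσu _ (uniq_atMostOne (hμU u hu) univ)
            ((uniq_sat (hμU u hu) univ).2 rfl)) (π u.1)
          have h7 : η ≤ |V.acc T q (σ u.1) (π u.1) -
              V.acc T q (σ (plant (vr s u.2) univ u.1)) (π u.1)| :=
            le_trans (by linarith) (le_abs_self _)
          calc η * (μ u * 1) = μ u * η := by ring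
            _ ≤ _ := mul_le_mul_of_nonneg_left h7 (hμ0 u)
        · rw [if_neg hX, mul_zero, mul_zero]
          exact mul_nonneg (hμ0 u) (abs_nonneg _)

/-- The error is smaller. -/
lemma small_q2 {C w : ℝ} {T n c q : ℕ} (hC : 0 < C) (hn : 2 ≤ n) (hT : 1 ≤ T)
    (hw : 8 * C * (T * Real.log (n + (n ^ c : ℕ))) ≤ w) (hq : q ≤ n ^ (c * T)) :
    3 * ((q : ℝ) * 2 ^ (-(w / C))) ≤ 1 / (n : ℝ) ^ c := by
  have hnR : (2 : ℝ) ≤ n := by exact_mod_cast hn
  have hTR : (1 : ℝ) ≤ T := by exact_mod_cast hT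
  have hnc : (0 : ℝ) < ((n ^ c : ℕ) : ℝ) := by
    have : 0 < n ^ c := by positivity
    exact_mod_cast this
  have hnc1 : (1 : ℝ) ≤ ((n ^ c : ℕ) : ℝ) := by
    have : 1 ≤ n ^ c := Nat.one_le_iff_ne_zero.2 (by positivity)
    exact_mod_cast this
  obtain ⟨L, hL⟩ : ∃ L : ℝ, L = Real.log (n + (n ^ c : ℕ)) := ⟨_, rfl⟩
  rw [← hL] at hw
  have hL0 : 0 ≤ L := by
    rw [hL]
    exact Real.log_nonneg (by linarith)
  have hl2 : (1 : ℝ) / 2 ≤ Real.log 2 := by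
    have := Real.log_two_gt_d9
    linarith
  have h1 : (2 : ℝ) ^ (-(w / C)) ≤ Real.exp (-(4 * (T * L))) := by
    rw [Real.rpow_def_of_pos (by norm_num)]
    apply Real.exp_le_exp.2
    have h2 : 8 * (T * L) ≤ w / C := by
      rw [le_div_iff₀ hC]
      linarith
    have h3 : 0 ≤ (T : ℝ) * L := by positivity
    have h4 : (1 / 2) * (w / C) ≤ Real.log 2 * (w / C) :=
      mul_le_mul_of_nonneg_right hl2 (by linarith)
    have h5 : Real.log 2 * -(w / C) = -(Real.log 2 * (w / C)) := by ring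
    rw [h5]
    linarith
  have h2 : (q : ℝ) ≤ Real.exp (T * L) := by
    have h3 : (q : ℝ) ≤ ((n ^ c : ℕ) : ℝ) ^ T := by
      have : q ≤ (n ^ c) ^ T := by rwa [← pow_mul]
      exact_mod_cast this
    refine h3.trans ?_
    have h4 : ((n ^ c : ℕ) : ℝ) ≤ Real.exp L := by
      rw [hL, Real.exp_log (by positivity)]
      linarith
    calc ((n ^ c : ℕ) : ℝ) ^ T ≤ (Real.exp L) ^ T := pow_le_pow_left₀ hnc.le h4 T
      _ = Real.exp (T * L) := by rw [← Real.exp_nat_mul]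
  have h3 : (q : ℝ) * 2 ^ (-(w / C)) ≤ (1 / Real.exp L) ^ 3 := by
    calc (q : ℝ) * 2 ^ (-(w / C)) ≤ Real.exp (T * L) * Real.exp (-(4 * (T * L))) :=
          mul_le_mul h2 h1 (by positivity) (Real.exp_pos _).le
      _ = Real.exp (-(3 * (T * L))) := by
          rw [← Real.exp_add]
          congr 1
          ring
      _ ≤ Real.exp (-(3 * L)) := by
          apply Real.exp_le_exp.2
          have : 1 * L ≤ T * L := mul_le_mul_of_nonneg_right hTR hL0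
          linarith
      _ = (1 / Real.exp L) ^ 3 := by
          rw [one_div, ← Real.exp_neg, ← Real.exp_nat_mul]
          congr 1
          push_cast
          ring
  have h4 : Real.exp L = n + (n ^ c : ℕ) := by
    rw [hL, Real.exp_log (by positivity)]
  rw [h4] at h3
  have h5 : (n : ℝ) ^ c = ((n ^ c : ℕ) : ℝ) := by push_cast; rfl
  rw [h5]
  refine (mul_le_mul_of_nonneg_left h3 (by norm_num)).trans ?_
  rw [one_div_pow, mul_one_div, div_le_div_iff₀ (by positivity) hnc, one_mul]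
  obtain ⟨z, hz⟩ : ∃ z : ℝ, z = ((n ^ c : ℕ) : ℝ) := ⟨_, rfl⟩
  rw [← hz] at hnc1 ⊢
  have h6 : 3 ≤ (n : ℝ) + z := by linarith
  have h7 : z ≤ (n : ℝ) + z := by linarith
  calc 3 * z ≤ ((n : ℝ) + z) * (n + z) := mul_le_mul h6 h7 (by linarith) (by linarith)
    _ ≤ ((n : ℝ) + z) * (n + z) * (n + z) := le_mul_of_one_le_right (by positivity) (by linarith)
    _ = ((n : ℝ) + z) ^ 3 := by ring

open Classical in
theorem q_refute_q1 (δ : ℝ) (hδ : 0 < δ) (hδ2 : δ < 2) (Kc c : ℕ) (T : ℕ → ℕ)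
    (hT : ∀ n, 1 ≤ T n)
    (hTo : (fun n : ℕ => (T n : ℝ) * Real.log n) =o[atTop] (fun n : ℕ => (n : ℝ))) :
    ∃ w : ℕ → ℕ, (∃ C : ℝ, ∀ n, 2 ≤ n → (w n : ℝ) ≤ C * (T n * Real.log n)) ∧
      ∀ e : ℕ, ∀ᶠ n : ℕ in atTop,
        ∃ ν : ((Fin (n * 2 ^ w n) × Fin n × Bool) → Bool) → ℝ,
        (∀ x, 0 ≤ ν x) ∧ ∑ x, ν x = 1 ∧
        (∀ x, ν x ≠ 0 → WidthLe x (w n) ∧ ¬ ∃ α, Models x α) ∧
        ∀ (P : ℕ) (V : QProofs (Fin (n * 2 ^ w n) × Fin n × Bool) P) (q : ℕ),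
          (P : ℝ) ≤ (2 - δ) ^ n * (e * (((n * 2 ^ w n : ℕ) : ℝ)) ^ e) →
          V.Lists (2 ^ (Kc * n)) → Nat.card V.I ≤ 2 ^ (n ^ c) → q ≤ n ^ (c * T n) →
          (∀ x, WidthLe x (w n) → (∃! α, Models x α) → ∀ π, V.acc (T n) q x π ≤ 1 / 3) →
          (∑ x, if ∃ π, 2 / 3 ≤ V.acc (T n) q x π then ν x else 0) ≤ 1 / (n : ℝ) ^ c := by
  obtain ⟨ε, hε, has⟩ := asym δ hδ hδ2
  obtain ⟨C, hC, H⟩ := q_refute ε hε Kc
  obtain ⟨w, hw1, hw2, hw3⟩ := has (8 * C) (by positivity) c T hT hTo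
  refine ⟨w, hw1, fun e => ?_⟩
  filter_upwards [hw3 e] with n hn
  obtain ⟨hn2, hwn, hwC, _, hPn⟩ := hn
  have hnR : (2 : ℝ) ≤ n := by exact_mod_cast hn2
  have hw4 := hw2 n hn2
  have hw5 : C * (T n * Real.log (n + (n ^ c : ℕ))) ≤ w n := by
    have h1 : 0 ≤ (T n : ℝ) * Real.log (n + (n ^ c : ℕ)) := by
      apply mul_nonneg (Nat.cast_nonneg _)
      apply Real.log_nonneg
      have : (0 : ℝ) ≤ ((n ^ c : ℕ) : ℝ) := Nat.cast_nonneg _
      linarith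
    have h2 : C * (T n * Real.log (n + (n ^ c : ℕ))) ≤
        8 * C * (T n * Real.log (n + (n ^ c : ℕ))) :=
      mul_le_mul_of_nonneg_right (by linarith) h1
    linarith
  obtain ⟨ν, h0, h1, hs, hV⟩ := H n (T n) (n ^ c) (w n) (n * 2 ^ w n) hn2 (hT n)
    hw5 (by omega) le_rfl
  refine ⟨ν, h0, h1, hs, ?_⟩
  intro P V q hP hL hI hq hsound
  have h2 := hV P V (hP.trans hPn) hL hI q (1 / 3) (1 / 3) hsound
  have h3 := small_q2 hC hn2 (hT n) hw4 hq
  have h4 : (1 : ℝ) / 3 + 1 / 3 = 2 / 3 := by norm_num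
  rw [h4] at h2
  linarith

end Pool.Agent.W964.Pram
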